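import Pool.Agent.helper21.OD.SpecA

set_option autoImplicit false

/-!
# Row od:FUT (MP_2e0e07_nt): Hecke operators modulo the prime and scalar symbols
-/

namespace Pool.Agent.OD

open MvPolynomial Matrix

theorem FUT_lin {t : ℤ} {κ : Type} [Field κ] (π : Oz t →+* κ) (k : ℕ) (x : Oz t) :
    eval ![0, 1, 0, 1] (lin π k x) = 1 := by
  unfold lin
  simp

/-- the matrix `w` -/
noncomputable def FUT_w (t : ℤ) : GO t :=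
  Matrix.GeneralLinearGroup.mk'' (!![0, -1; 1, 0] : Mat t) (by
    rw [Matrix.det_fin_two_of]
    simp)

theorem FUT_w_val (t : ℤ) : (FUT_w t).val = !![0, -1; 1, 0] := rfl

theorem FUT_a (hSNG : SNG_stmt) {t : ℤ} {ℓ : ℕ} {κ : Type} [Field κ] (π : Oz t →+* κ)
    (hℓ : ((ℓ : ℕ) : κ) = 0) (k : ℕ) (φ : Sy t κ) (hφ : ∀ u v, BiHom k (φ u v)) :
    opU π ℓ φ = bU π ℓ k (evS φ) := by
  have hf : π ((ℓ : ℕ) : Oz t) = 0 := by rw [map_natCast]; exact hℓ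
  funext u v
  show ∑ x : Fin ℓ × Fin ℓ, act π !![((ℓ : ℕ) : Oz t), - rep t x; 0, 1]
      (φ (!![1, rep t x; 0, ((ℓ : ℕ) : Oz t)] *ᵥ u) (!![1, rep t x; 0, ((ℓ : ℕ) : Oz t)] *ᵥ v)) =
    ∑ x : Fin ℓ × Fin ℓ,
      C (evS φ (!![1, rep t x; 0, ((ℓ : ℕ) : Oz t)] *ᵥ u) (!![1, rep t x; 0, ((ℓ : ℕ) : Oz t)] *ᵥ v)) *
        lin π k (rep t x)
  refine Finset.sum_congr rfl fun x _ => ?_
  exact (hSNG π ℓ k _ hf (hφ _ _)).1 (rep t x)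

theorem FUT_c {t : ℤ} {ℓ : ℕ} {κ : Type} [Field κ] (π : Oz t →+* κ) (k : ℕ) (ψ : Vec t → Vec t → κ) :
    evS (bU π ℓ k ψ) = uS ℓ ψ := by
  funext u v
  show eval ![0, 1, 0, 1] (∑ x : Fin ℓ × Fin ℓ,
      C (ψ (!![1, rep t x; 0, ((ℓ : ℕ) : Oz t)] *ᵥ u) (!![1, rep t x; 0, ((ℓ : ℕ) : Oz t)] *ᵥ v)) *
        lin π k (rep t x)) = ∑ x : Fin ℓ × Fin ℓ,
    ψ (!![1, rep t x; 0, ((ℓ : ℕ) : Oz t)] *ᵥ u) (!![1, rep t x; 0, ((ℓ : ℕ) : Oz t)] *ᵥ v)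
  rw [map_sum]
  refine Finset.sum_congr rfl fun x _ => ?_
  rw [map_mul, eval_C, FUT_lin, mul_one]

theorem FUT (hSNG : SNG_stmt) : FUT_stmt := by
  intro t ℓ κ _ π hℓ k
  have hf : π ((ℓ : ℕ) : Oz t) = 0 := by rw [map_natCast]; exact hℓ
  refine ⟨fun φ hφ => FUT_a hSNG π hℓ k φ hφ, fun φ hφ => ?_, fun ψ => FUT_c π k ψ, fun hk ψ => ?_⟩
  · funext u v
    show opU π ℓ φ u v + act π !![1, 0; 0, ((ℓ : ℕ) : Oz t)]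
        (φ (!![((ℓ : ℕ) : Oz t), 0; 0, 1] *ᵥ u) (!![((ℓ : ℕ) : Oz t), 0; 0, 1] *ᵥ v)) =
      bU π ℓ k (evS φ) u v +
        C (evS φ (!![0, -1; ((ℓ : ℕ) : Oz t), 0] *ᵥ u) (!![0, -1; ((ℓ : ℕ) : Oz t), 0] *ᵥ v)) *
          (X 0 ^ k * X 2 ^ k)
    rw [FUT_a hSNG π hℓ k φ hφ.hom, (hSNG π ℓ k _ hf (hφ.hom _ _)).2]
    have hw := hφ.equiv (FUT_w t) (!![((ℓ : ℕ) : Oz t), 0; 0, 1] *ᵥ u)
      (!![((ℓ : ℕ) : Oz t), 0; 0, 1] *ᵥ v) (by rw [Nat.cast_one]; exact one_dvd _)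
    rw [FUT_w_val, one_smul, Matrix.mulVec_mulVec, Matrix.mulVec_mulVec] at hw
    have hm : (!![0, -1; 1, 0] : Mat t) * !![((ℓ : ℕ) : Oz t), 0; 0, 1] =
        !![0, -1; ((ℓ : ℕ) : Oz t), 0] := by
      rw [Matrix.mul_fin_two]
      simp
    rw [hm] at hw
    rw [← hw]
    rfl
  · funext u v
    have h1 : evS (bT π ℓ k ψ) u v = evS (bU π ℓ k ψ) u v + eval ![0, 1, 0, 1]
        (C (ψ (!![0, -1; ((ℓ : ℕ) : Oz t), 0] *ᵥ u) (!![0, -1; ((ℓ : ℕ) : Oz t), 0] *ᵥ v)) *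
          (X 0 ^ k * X 2 ^ k)) := by
      show eval ![0, 1, 0, 1] (bU π ℓ k ψ u v + _) = _
      rw [map_add]
      rfl
    rw [h1, FUT_c]
    have h2 : (0 : κ) ^ k = 0 := zero_pow (by omega)
    simp [h2]

end Pool.Agent.OD
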